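import Pool.Agent.TH332.HF.Rad

/-! A bounded operator which is the direct sum of zero and an invertible operator is `R`-sectorial. -/

set_option autoImplicit false
set_option linter.unusedSectionVars false

open Set Filter Topology

namespace Pool.Agent.TH332.HF

open Pool.Agent.TH313.HI

variable {X : Type*} [NormedAddCommGroup X] [NormedSpace ℂ X] [CompleteSpace X]

/-- splitting data -/
theorem exists_split (B : X →L[ℂ] X) (Y : Submodule ℂ X) (hY : IsClosed (Y : Set X))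
    (hcompl : IsCompl (LinearMap.ker (B : X →ₗ[ℂ] X)) Y) (hBY : ∀ x, B x ∈ Y)
    (hsurj : ∀ y ∈ Y, ∃ x ∈ Y, B x = y) :
    ∃ P Q G : X →L[ℂ] X, (∀ x, P x + Q x = x) ∧ (∀ x, B (Q x) = 0) ∧ (∀ x, B (G x) = P x) ∧
      (∀ x, P (G x) = G x) := by
  have hK : IsClosed ((LinearMap.ker (B : X →ₗ[ℂ] X) : Submodule ℂ X) : Set X) :=
    ContinuousLinearMap.isClosed_ker B
  have hT : Submodule.IsTopCompl (LinearMap.ker (B : X →ₗ[ℂ] X)) Y :=
    Submodule.IsCompl.isTopCompl_of_isClosed hcompl hK hY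
  have hcY : CompleteSpace Y := hY.completeSpace_coe
  let BY : Y →L[ℂ] Y := (B.comp Y.subtypeL).codRestrict Y fun x => hBY _
  have hBYa : ∀ y : Y, ((BY y : Y) : X) = B y := fun y => rfl
  have hinj : LinearMap.ker (BY : Y →ₗ[ℂ] Y) = ⊥ := by
    rw [LinearMap.ker_eq_bot']
    intro y hy
    have h1 : B (y : X) = 0 := by
      have h2 : BY y = 0 := hy
      rw [← hBYa, h2]; rfl
    have h2 : (y : X) ∈ LinearMap.ker (B : X →ₗ[ℂ] X) ⊓ Y := ⟨h1, y.2⟩
    rw [hcompl.inf_eq_bot] at h2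
    exact Subtype.ext ((Submodule.mem_bot ℂ).1 h2)
  have hsur : LinearMap.range (BY : Y →ₗ[ℂ] Y) = ⊤ := by
    rw [LinearMap.range_eq_top]
    intro y
    obtain ⟨x, hx, hxy⟩ := hsurj y y.2
    exact ⟨⟨x, hx⟩, Subtype.ext hxy⟩
  let e : Y ≃L[ℂ] Y := ContinuousLinearEquiv.ofBijective BY hinj hsur
  have he : ∀ y : Y, BY (e.symm y) = y := fun y => e.apply_symm_apply y
  let PY : X →L[ℂ] Y := Y.projectionOntoL _ hT.symm
  have hP : ∀ x, ((PY x : Y) : X) + (LinearMap.ker (B : X →ₗ[ℂ] X)).projectionL Y hT x = x := by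
    intro x
    have := Submodule.projectionL_add_projectionL_eq_self hT.symm x
    rw [Submodule.projectionL_apply] at this
    exact this
  refine ⟨Y.subtypeL.comp PY, (LinearMap.ker (B : X →ₗ[ℂ] X)).projectionL Y hT,
    Y.subtypeL.comp ((e.symm : Y →L[ℂ] Y).comp PY), hP, fun x => ?_, fun x => ?_, fun x => ?_⟩
  · exact Submodule.projectionL_apply_mem hT x
  · change B ((e.symm (PY x) : Y) : X) = ((PY x : Y) : X)
    rw [← hBYa, he]
  · change ((PY ((e.symm (PY x) : Y) : X) : Y) : X) = ((e.symm (PY x) : Y) : X)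
    have := Submodule.projectionL_apply_left hT.symm (e.symm (PY x))
    rw [Submodule.projectionL_apply] at this
    exact this

/-- solution of the resolvent equation by a series -/
theorem resolvent_apply {B : X →L[ℂ] X} {A : X →ₗ.[ℂ] X} (hdom : A.domain = ⊤)
    (hA : ∀ x : A.domain, A x = B x) {z : ℂ} {R : X →L[ℂ] X} (hR : IsResolvent A z R)
    {x y : X} (h : z • y - B y = x) : R x = y := by
  have hy : y ∈ A.domain := by rw [hdom]; trivial
  have := hR.2 ⟨y, hy⟩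
  rw [hA] at this
  rw [← h]
  exact this

theorem resolvent_eq {B : X →L[ℂ] X} {A : X →ₗ.[ℂ] X}
    (hA : ∀ x : A.domain, A x = B x) {z : ℂ} {R : X →L[ℂ] X} (hR : IsResolvent A z R)
    (x : X) : z • R x - B (R x) = x := by
  obtain ⟨h, h1⟩ := hR.1 x
  rw [hA] at h1
  exact h1

theorem sector_mono {a b : ℝ} (h : a ≤ b) : closure (sector a) ⊆ closure (sector b) :=
  closure_mono fun _ hz => ⟨hz.1, hz.2.trans_le h⟩

theorem zero_mem_closure {a : ℝ} (h : 0 < a) : (0:ℂ) ∈ closure (sector a) := by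
  rw [Metric.mem_closure_iff]
  intro ε hε
  refine ⟨((ε / 2 : ℝ) : ℂ), ⟨?_, ?_⟩, ?_⟩
  · exact_mod_cast (by positivity : (ε / 2 : ℝ) ≠ 0)
  · rw [Complex.arg_ofReal_of_nonneg (by positivity), abs_zero]; exact h
  · rw [dist_eq_norm, zero_sub, norm_neg, Complex.norm_real, Real.norm_of_nonneg (by positivity)]
    linarith

/-- big `z` -/
theorem big_mem (B : X →L[ℂ] X) {A : X →ₗ.[ℂ] X} (hdom : A.domain = ⊤)
    (hA : ∀ x : A.domain, A x = B x) {z : ℂ} {R : X →L[ℂ] X} (hR : IsResolvent A z R)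
    (hz : 2 * ‖B‖ + 1 ≤ ‖z‖) :
    ∃ c : ℕ → ℂ, (∀ n, ‖c n‖ ≤ 1) ∧ ∀ x, HasSum (fun n => c n •
      (((((‖B‖ + 1/2 : ℝ) : ℂ))⁻¹ ^ n) • B ^ n) x) ((z • R) x) := by
  have hB := norm_nonneg B
  have hz0 : z ≠ 0 := by
    intro h; rw [h, norm_zero] at hz; linarith
  have hρ0 : ((‖B‖ + 1/2 : ℝ) : ℂ) ≠ 0 := by exact_mod_cast (by positivity : (‖B‖ + 1/2 : ℝ) ≠ 0)
  refine ⟨fun n => (((‖B‖ + 1/2 : ℝ) : ℂ) / z) ^ n, fun n => ?_, fun x => ?_⟩
  · rw [norm_pow, norm_div, Complex.norm_real, Real.norm_of_nonneg (by positivity)]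
    refine pow_le_one₀ (by positivity) ?_
    rw [div_le_one (by positivity)]
    linarith
  · -- the terms
    have hterm : ∀ n : ℕ, (((‖B‖ + 1/2 : ℝ) : ℂ) / z) ^ n •
        (((((‖B‖ + 1/2 : ℝ) : ℂ))⁻¹ ^ n) • B ^ n) x = (z⁻¹ ^ n) • (B ^ n) x := by
      intro n
      rw [_root_.smul_apply, smul_smul]
      congr 1
      rw [← mul_pow]
      congr 1
      rw [div_eq_mul_inv, mul_comm (((‖B‖ + 1/2 : ℝ) : ℂ)), mul_assoc, mul_inv_cancel₀ hρ0, mul_one]
    simp only [hterm]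
    have hs : Summable fun n : ℕ => (z⁻¹ ^ n) • (B ^ n) x := by
      refine Summable.of_norm_bounded (g := fun n : ℕ => (1/2 : ℝ) ^ n * ‖x‖)
        ((summable_geometric_of_lt_one (by norm_num) (by norm_num)).mul_right _) fun n => ?_
      rw [norm_smul, norm_pow, norm_inv]
      have h1 : ‖(B ^ n) x‖ ≤ ‖B‖ ^ n * ‖x‖ := by
        rcases n with _ | n
        · simp
        · exact ((B ^ (n + 1)).le_opNorm x).trans
            (mul_le_mul_of_nonneg_right (norm_pow_le' B (Nat.succ_pos n)) (norm_nonneg _))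
      calc ‖z‖⁻¹ ^ n * ‖(B ^ n) x‖ ≤ ‖z‖⁻¹ ^ n * (‖B‖ ^ n * ‖x‖) :=
            mul_le_mul_of_nonneg_left h1 (by positivity)
        _ = (‖B‖ / ‖z‖) ^ n * ‖x‖ := by rw [← mul_assoc, ← mul_pow]; ring
        _ ≤ (1/2 : ℝ) ^ n * ‖x‖ := by
            refine mul_le_mul_of_nonneg_right (pow_le_pow_left₀ (by positivity) ?_ n)
              (norm_nonneg _)
            rw [div_le_div_iff₀ (by linarith) (by norm_num)]
            linarith
    obtain ⟨y, hy⟩ := hs
    have h0 : y = x + z⁻¹ • B y := by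
      have h1 := hy.tsum_eq
      rw [hy.summable.tsum_eq_zero_add] at h1
      have h2 : HasSum (fun n : ℕ => (z⁻¹ ^ (n + 1)) • (B ^ (n + 1)) x) (z⁻¹ • B y) := by
        have h3 := (hy.mapL B).const_smul z⁻¹
        refine h3.congr_fun ?_ 
        intro n
        simp only [map_smul, smul_smul]
        rw [pow_succ' B n, mul_apply_eq_comp, pow_succ']
      rw [h2.tsum_eq] at h1
      simp only [pow_zero, one_smul, one_apply_eq_self] at h1
      exact h1.symm
    have h1 : z • y - B y = z • x := by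
      have h5 : z • y = z • x + B y := by
        conv_lhs => rw [h0]
        rw [smul_add, smul_smul, mul_inv_cancel₀ hz0, one_smul]
      rw [h5]; abel
    have h2 := resolvent_apply hdom hA hR h1
    rw [map_smul] at h2
    rw [_root_.smul_apply, h2]
    exact hy

/-- small `z` -/
theorem small_mem (B : X →L[ℂ] X) {A : X →ₗ.[ℂ] X} (hdom : A.domain = ⊤)
    (hA : ∀ x : A.domain, A x = B x) {P Q G : X →L[ℂ] X} (hPQ : ∀ x, P x + Q x = x)
    (hBQ : ∀ x, B (Q x) = 0) (hBG : ∀ x, B (G x) = P x) (hPG : ∀ x, P (G x) = G x)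
    {z : ℂ} {R : X →L[ℂ] X} (hR : IsResolvent A z R) (hz0 : z ≠ 0)
    (hz : ‖z‖ ≤ (2 * ‖G‖ + 1)⁻¹) :
    ∃ c : ℕ → ℂ, (∀ n, ‖c n‖ ≤ 1) ∧ ∀ x, HasSum (fun n => c n •
      ((if n = 0 then Q else (((((2 * ‖G‖ + 1)⁻¹ : ℝ) : ℂ)) ^ n) • G ^ n : X →L[ℂ] X)) x)
        ((z • R) x) := by
  have hG := norm_nonneg G
  set δ : ℝ := (2 * ‖G‖ + 1)⁻¹ with hδ
  have hδ0 : 0 < δ := by positivity
  have hδc : (δ : ℂ) ≠ 0 := by exact_mod_cast hδ0.ne'
  refine ⟨fun n => if n = 0 then 1 else -(z / (δ : ℂ)) ^ n, fun n => ?_, fun x => ?_⟩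
  · by_cases hn : n = 0
    · simp [hn]
    · simp only [hn, if_false]
      rw [norm_neg, norm_pow, norm_div, Complex.norm_real, Real.norm_of_nonneg hδ0.le]
      refine pow_le_one₀ (by positivity) ?_
      rw [div_le_one hδ0]
      exact hz
  · have hterm : ∀ n : ℕ, (if n = 0 then (1:ℂ) else -(z / (δ : ℂ)) ^ n) •
        ((if n = 0 then Q else ((δ : ℂ) ^ n) • G ^ n : X →L[ℂ] X)) x =
          if n = 0 then Q x else -((z ^ n) • (G ^ n) x) := by
      intro n
      by_cases hn : n = 0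
      · simp [hn]
      · simp only [hn, if_false]
        rw [_root_.smul_apply, smul_smul, ← neg_smul]
        congr 1
        rw [neg_mul, ← mul_pow, div_mul_cancel₀ _ hδc]
    simp only [hterm]
    have hs : Summable fun n : ℕ => (z ^ n) • (G ^ n) x := by
      refine Summable.of_norm_bounded (g := fun n : ℕ => (1/2 : ℝ) ^ n * ‖x‖)
        ((summable_geometric_of_lt_one (by norm_num) (by norm_num)).mul_right _) fun n => ?_
      rw [norm_smul, norm_pow]
      have h1 : ‖(G ^ n) x‖ ≤ ‖G‖ ^ n * ‖x‖ := by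
        rcases n with _ | n
        · simp
        · exact ((G ^ (n + 1)).le_opNorm x).trans
            (mul_le_mul_of_nonneg_right (norm_pow_le' G (Nat.succ_pos n)) (norm_nonneg _))
      calc ‖z‖ ^ n * ‖(G ^ n) x‖ ≤ ‖z‖ ^ n * (‖G‖ ^ n * ‖x‖) :=
            mul_le_mul_of_nonneg_left h1 (by positivity)
        _ = (‖z‖ * ‖G‖) ^ n * ‖x‖ := by rw [← mul_assoc, ← mul_pow]
        _ ≤ (1/2 : ℝ) ^ n * ‖x‖ := by
            refine mul_le_mul_of_nonneg_right (pow_le_pow_left₀ (by positivity) ?_ n)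
              (norm_nonneg _)
            calc ‖z‖ * ‖G‖ ≤ δ * ‖G‖ := mul_le_mul_of_nonneg_right hz hG
              _ = ‖G‖ / (2 * ‖G‖ + 1) := by rw [hδ]; ring
              _ ≤ 1 / 2 := by
                rw [div_le_div_iff₀ (by linarith) (by norm_num)]
                linarith
    -- the tail `w = ∑_{n ≥ 1} z^n G^n x`
    obtain ⟨s, hs'⟩ := hs
    have hw : HasSum (fun n : ℕ => (z ^ (n + 1)) • (G ^ (n + 1)) x) (s - x) := by
      have := (hasSum_nat_add_iff' (f := fun n : ℕ => (z ^ n) • (G ^ n) x) 1).2 hs'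
      simpa using this
    set w := s - x with hwdef
    have hsum : HasSum (fun n : ℕ => if n = 0 then Q x else -((z ^ n) • (G ^ n) x)) (Q x - w) := by
      have h1 := (hasSum_nat_add_iff (f := fun n : ℕ =>
        if n = 0 then Q x else -((z ^ n) • (G ^ n) x)) 1 (g := -w)).1 (by
          simpa using hw.neg)
      have h2 : -w + ∑ i ∈ Finset.range 1,
          (if i = 0 then Q x else -((z ^ i) • (G ^ i) x)) = Q x - w := by
        simp; abel
      rw [h2] at h1
      exact h1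
    -- B w = z P x + z w
    have hBw : B w = z • P x + z • w := by
      have h1 := hw.mapL B
      have h2 : HasSum (fun n : ℕ => (z ^ (n + 2)) • (G ^ (n + 1)) x) (z • w) := by
        have := hw.const_smul z
        refine this.congr_fun ?_
        intro n
        rw [smul_smul, ← pow_succ']
      have h3 : HasSum (fun n : ℕ => B ((z ^ (n + 1)) • (G ^ (n + 1)) x)) (z • P x + z • w) := by
        have h4 := (hasSum_nat_add_iff (f := fun n : ℕ => B ((z ^ (n + 1)) • (G ^ (n + 1)) x)) 1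
          (g := z • w)).1 (by
            refine h2.congr_fun ?_
            intro n
            rw [map_smul, pow_succ' G (n + 1), mul_apply_eq_comp, hBG]
            congr 1
            rw [pow_succ' G n, mul_apply_eq_comp, hPG])
        have h5 : z • w + ∑ i ∈ Finset.range 1, B ((z ^ (i + 1)) • (G ^ (i + 1)) x) =
            z • P x + z • w := by
          simp [hBG]; abel
        rw [h5] at h4
        exact h4
      exact h1.unique h3
    have h1 : z • (Q x - w) - B (Q x - w) = z • x := by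
      rw [map_sub, hBQ, hBw, zero_sub, smul_sub]
      conv_rhs => rw [← hPQ x, smul_add]
      abel
    have h2 := resolvent_apply hdom hA hR h1
    rw [map_smul] at h2
    rw [_root_.smul_apply, h2]
    exact hsum

/-- near `z₀` -/
theorem near_mem (B : X →L[ℂ] X) {A : X →ₗ.[ℂ] X} (hdom : A.domain = ⊤)
    (hA : ∀ x : A.domain, A x = B x) {z₀ : ℂ} {R₀ : X →L[ℂ] X} (hR₀ : IsResolvent A z₀ R₀)
    {r K : ℝ} (hr : 0 < r) (hK : 0 < K) (hrR : r * ‖R₀‖ ≤ 1 / 2)
    {z : ℂ} {R : X →L[ℂ] X} (hR : IsResolvent A z R) (hz : ‖z - z₀‖ ≤ r) (hzK : ‖z‖ ≤ K) :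
    ∃ c : ℕ → ℂ, (∀ n, ‖c n‖ ≤ 1) ∧ ∀ x, HasSum (fun n => c n •
      (((K : ℂ) * (r : ℂ) ^ n) • R₀ ^ (n + 1)) x) ((z • R) x) := by
  have hrc : (r : ℂ) ≠ 0 := by exact_mod_cast hr.ne'
  have hKc : (K : ℂ) ≠ 0 := by exact_mod_cast hK.ne'
  refine ⟨fun n => (z / K) * ((z₀ - z) / (r : ℂ)) ^ n, fun n => ?_, fun x => ?_⟩
  · rw [norm_mul, norm_pow, norm_div, norm_div, Complex.norm_real, Complex.norm_real,
      Real.norm_of_nonneg hr.le, Real.norm_of_nonneg hK.le, norm_sub_rev]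
    refine mul_le_one₀ ?_ (by positivity) (pow_le_one₀ (by positivity) ?_)
    · rw [div_le_one hK]; exact hzK
    · rw [div_le_one hr]; exact hz
  · have hterm : ∀ n : ℕ, ((z / K) * ((z₀ - z) / (r : ℂ)) ^ n) •
        (((K : ℂ) * (r : ℂ) ^ n) • R₀ ^ (n + 1)) x =
          z • (((z₀ - z) ^ n) • (R₀ ^ (n + 1)) x) := by
      intro n
      rw [_root_.smul_apply, smul_smul, smul_smul]
      congr 1
      rw [div_pow]
      field_simp
    simp only [hterm]
    have hs : Summable fun n : ℕ => ((z₀ - z) ^ n) • (R₀ ^ (n + 1)) x := by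
      refine Summable.of_norm_bounded (g := fun n : ℕ => (1/2 : ℝ) ^ n * (‖R₀‖ * ‖x‖))
        ((summable_geometric_of_lt_one (by norm_num) (by norm_num)).mul_right _) fun n => ?_
      rw [norm_smul, norm_pow]
      have h1 : ‖(R₀ ^ (n + 1)) x‖ ≤ ‖R₀‖ ^ (n + 1) * ‖x‖ :=
        ((R₀ ^ (n + 1)).le_opNorm x).trans
            (mul_le_mul_of_nonneg_right (norm_pow_le' R₀ (Nat.succ_pos n)) (norm_nonneg _))
      calc ‖z₀ - z‖ ^ n * ‖(R₀ ^ (n + 1)) x‖ ≤ ‖z₀ - z‖ ^ n * (‖R₀‖ ^ (n + 1) * ‖x‖) :=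
            mul_le_mul_of_nonneg_left h1 (by positivity)
        _ = (‖z₀ - z‖ * ‖R₀‖) ^ n * (‖R₀‖ * ‖x‖) := by rw [mul_pow]; ring
        _ ≤ (1/2 : ℝ) ^ n * (‖R₀‖ * ‖x‖) := by
            refine mul_le_mul_of_nonneg_right (pow_le_pow_left₀ (by positivity) ?_ n)
              (by positivity)
            rw [norm_sub_rev]
            exact (mul_le_mul_of_nonneg_right hz (norm_nonneg _)).trans hrR
    obtain ⟨y, hy⟩ := hs
    -- `z₀ y - B y = x + (z₀ - z) y`
    have h1 : z₀ • y - B y = x + (z₀ - z) • y := by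
      have h2 : HasSum (fun n : ℕ => z₀ • (((z₀ - z) ^ n) • (R₀ ^ (n + 1)) x) -
          B (((z₀ - z) ^ n) • (R₀ ^ (n + 1)) x)) (z₀ • y - B y) :=
        (hy.const_smul z₀).sub (hy.mapL B)
      have h3 : ∀ n : ℕ, z₀ • (((z₀ - z) ^ n) • (R₀ ^ (n + 1)) x) -
          B (((z₀ - z) ^ n) • (R₀ ^ (n + 1)) x) = ((z₀ - z) ^ n) • (R₀ ^ n) x := by
        intro n
        rw [map_smul, smul_comm z₀, ← smul_sub, pow_succ' R₀ n, mul_apply_eq_comp,
          resolvent_eq hA hR₀]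
      simp only [h3] at h2
      have h4 : HasSum (fun n : ℕ => ((z₀ - z) ^ n) • (R₀ ^ n) x) (x + (z₀ - z) • y) := by
        have h5 := (hasSum_nat_add_iff (f := fun n : ℕ => ((z₀ - z) ^ n) • (R₀ ^ n) x) 1
          (g := (z₀ - z) • y)).1 (by
            refine (hy.const_smul (z₀ - z)).congr_fun ?_
            intro n
            rw [smul_smul, ← pow_succ'])
        have h6 : (z₀ - z) • y + ∑ i ∈ Finset.range 1, ((z₀ - z) ^ i) • (R₀ ^ i) x =
            x + (z₀ - z) • y := by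
          simp; abel
        rw [h6] at h5
        exact h5
      exact h2.unique h4
    have h2 : z • y - B y = x := by
      have h3 : z • y - B y = (z₀ • y - B y) - (z₀ - z) • y := by rw [sub_smul]; abel
      rw [h3, h1]; abel
    have h3 := resolvent_apply hdom hA hR h2
    rw [_root_.smul_apply, h3]
    exact hy.const_smul z

/-- A bounded operator which is the direct sum of zero and an invertible operator is `R`-sectorial. -/
theorem rsectorial_of_split (B : X →L[ℂ] X) (Y : Submodule ℂ X) (hY : IsClosed (Y : Set X))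
    (hcompl : IsCompl (LinearMap.ker (B : X →ₗ[ℂ] X)) Y) (hBY : ∀ x, B x ∈ Y)
    (hsurj : ∀ y ∈ Y, ∃ x ∈ Y, B x = y) (A : X →ₗ.[ℂ] X) (hdom : A.domain = ⊤)
    (hA : ∀ x : A.domain, A x = B x) (ω : ℝ) (h0 : 0 < ω) (h1 : ω < Real.pi)
    (hs : IsSectorialOfAngle A ω) : IsRSectorial A := by
  obtain ⟨P, Q, G, hPQ, hBQ, hBG, hPG⟩ := exists_split B Y hY hcompl hBY hsurj
  set σ : ℝ := (ω + Real.pi) / 2 with hσ
  have hωσ : ω < σ := by rw [hσ]; linarith
  have hσπ : σ < Real.pi := by rw [hσ]; linarith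
  have hσ0 : 0 < σ := h0.trans hωσ
  obtain ⟨C, hC⟩ := hs.bound σ hωσ hσπ
  refine ⟨σ, hσ0, hσπ, fun z hz => hs.resolvent z fun h => hz (sector_mono hωσ.le h), ?_⟩
  have hG := norm_nonneg G
  have hB := norm_nonneg B
  set m : ℝ := (2 * ‖G‖ + 1)⁻¹ with hm
  have hm0 : 0 < m := by positivity
  set K : ℝ := 2 * ‖B‖ + 1 with hK
  have hK0 : 0 < K := by positivity
  set r : ℝ := m / (2 * (|C| + 1)) with hr
  have hr0 : 0 < r := by positivity
  -- the middle region
  set M : Set ℂ := {z | z ∉ closure (sector σ) ∧ m ≤ ‖z‖ ∧ ‖z‖ ≤ K} with hM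
  have hMb : TotallyBounded M := by
    refine (isCompact_closedBall (0:ℂ) K).totallyBounded.subset ?_
    intro z hz
    rw [mem_closedBall_zero_iff]
    exact hz.2.2
  obtain ⟨t, htM, htf, htc⟩ := Metric.finite_approx_of_totallyBounded hMb r hr0
  have hres : ∀ z₀ : ℂ, ∃ R₀ : X →L[ℂ] X, z₀ ∈ M → IsResolvent A z₀ R₀ := by
    intro z₀
    by_cases h : z₀ ∈ M
    · obtain ⟨R, hR⟩ := hs.resolvent z₀ fun h' => h.1 (sector_mono hωσ.le h')
      exact ⟨R, fun _ => hR⟩
    · exact ⟨0, fun h' => absurd h' h⟩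
  choose R₀ hR₀ using hres
  have hR₀n : ∀ z₀ ∈ M, r * ‖R₀ z₀‖ ≤ 1 / 2 := by
    intro z₀ h
    have h2 := hC z₀ (R₀ z₀) h.1 (hR₀ z₀ h)
    rw [norm_smul] at h2
    have h3 : m * ‖R₀ z₀‖ ≤ |C| + 1 := by
      have := mul_le_mul_of_nonneg_right h.2.1 (norm_nonneg (R₀ z₀))
      linarith [le_abs_self C]
    have hc : 0 < |C| + 1 := by positivity
    rw [hr, div_mul_eq_mul_div, div_le_div_iff₀ (by positivity) (by norm_num)]
    linarith
  have S1 := IsRBounded.series (X := X) (fun n => (((((‖B‖ + 1/2 : ℝ) : ℂ))⁻¹ ^ n) • B ^ n)) (by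
    refine Summable.of_nonneg_of_le (fun n => norm_nonneg _)
      (g := fun n => ‖((((‖B‖ + 1/2 : ℝ) : ℂ))⁻¹ ^ n) • B ^ n‖)
      (f := fun n => (‖B‖ / (‖B‖ + 1/2)) ^ n * (1 + ‖(1 : X →L[ℂ] X)‖)) (fun n => ?_) ?_
    · rw [norm_smul, norm_pow, norm_inv, Complex.norm_real, Real.norm_of_nonneg (by positivity)]
      rcases n with _ | n
      · simp
      · have h2 := norm_pow_le' B (Nat.succ_pos n)
        calc (‖B‖ + 1/2)⁻¹ ^ (n + 1) * ‖B ^ (n + 1)‖ ≤ (‖B‖ + 1/2)⁻¹ ^ (n + 1) * ‖B‖ ^ (n + 1) :=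
              mul_le_mul_of_nonneg_left h2 (by positivity)
          _ = (‖B‖ / (‖B‖ + 1/2)) ^ (n + 1) * 1 := by rw [← mul_pow, mul_one]; ring
          _ ≤ _ := mul_le_mul_of_nonneg_left (by linarith [norm_nonneg (1 : X →L[ℂ] X)])
              (by positivity)
    · refine (summable_geometric_of_lt_one (by positivity) ?_).mul_right _
      rw [div_lt_one (by positivity)]; linarith)
  have S2 := IsRBounded.series (X := X) (fun n => (if n = 0 then Q else (((m : ℝ) : ℂ) ^ n) • G ^ n)) (by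
    rw [← summable_nat_add_iff 1]
    refine Summable.of_nonneg_of_le (fun n => norm_nonneg _)
      (f := fun n => (1/2 : ℝ) ^ (n + 1)) (fun n => ?_) ?_
    · simp only [Nat.add_eq_zero_iff, one_ne_zero, and_false, if_false]
      rw [norm_smul, norm_pow, Complex.norm_real, Real.norm_of_nonneg hm0.le]
      have h2 := norm_pow_le' G (Nat.succ_pos n)
      calc m ^ (n + 1) * ‖G ^ (n + 1)‖ ≤ m ^ (n + 1) * ‖G‖ ^ (n + 1) :=
            mul_le_mul_of_nonneg_left h2 (by positivity)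
        _ = (‖G‖ / (2 * ‖G‖ + 1)) ^ (n + 1) := by rw [← mul_pow, hm]; ring
        _ ≤ _ := by
            refine pow_le_pow_left₀ (by positivity) ?_ _
            rw [div_le_div_iff₀ (by linarith) (by norm_num)]
            linarith
    · exact (summable_nat_add_iff 1).2
        (summable_geometric_of_lt_one (by norm_num) (by norm_num)))
  have S3 : ∀ z₀ ∈ t, IsRBounded {T : X →L[ℂ] X | ∃ c : ℕ → ℂ, (∀ n, ‖c n‖ ≤ 1) ∧
      ∀ x, HasSum (fun n => c n • (((K : ℂ) * (r : ℂ) ^ n) • (R₀ z₀) ^ (n + 1)) x) (T x)} := by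
    intro z₀ hz₀
    refine IsRBounded.series (X := X) (fun n => (((K : ℂ) * (r : ℂ) ^ n) • (R₀ z₀) ^ (n + 1))) ?_
    refine Summable.of_nonneg_of_le (fun n => norm_nonneg _)
      (f := fun n => (1/2 : ℝ) ^ n * (K * ‖R₀ z₀‖)) (fun n => ?_) ?_
    · rw [norm_smul, norm_mul, norm_pow, Complex.norm_real, Complex.norm_real,
        Real.norm_of_nonneg hr0.le, Real.norm_of_nonneg hK0.le]
      have h2 := norm_pow_le' (R₀ z₀) (Nat.succ_pos n)
      calc K * r ^ n * ‖(R₀ z₀) ^ (n + 1)‖ ≤ K * r ^ n * ‖R₀ z₀‖ ^ (n + 1) :=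
            mul_le_mul_of_nonneg_left h2 (by positivity)
        _ = (r * ‖R₀ z₀‖) ^ n * (K * ‖R₀ z₀‖) := by rw [mul_pow]; ring
        _ ≤ _ := mul_le_mul_of_nonneg_right
            (pow_le_pow_left₀ (by positivity) (hR₀n z₀ (htM hz₀)) n) (by positivity)
    · exact (summable_geometric_of_lt_one (by norm_num) (by norm_num)).mul_right _
  refine IsRBounded.mono (IsRBounded.union (IsRBounded.union S1 S2)
    (IsRBounded.biUnion t htf _ S3)) ?_
  rintro T ⟨z, R, hz, hR, rfl⟩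
  have hz0 : z ≠ 0 := by
    rintro rfl
    exact hz (zero_mem_closure hσ0)
  rcases le_or_gt K ‖z‖ with hzK | hzK
  · exact Or.inl (Or.inl (big_mem B hdom hA hR hzK))
  rcases le_or_gt ‖z‖ m with hzm | hzm
  · exact Or.inl (Or.inr (small_mem B hdom hA hPQ hBQ hBG hPG hR hz0 hzm))
  · right
    have hzM : z ∈ M := ⟨hz, hzm.le, hzK.le⟩
    have := htc hzM
    rw [mem_iUnion₂] at this
    obtain ⟨z₀, hz₀, hd⟩ := this
    rw [mem_iUnion₂]
    refine ⟨z₀, hz₀, near_mem B hdom hA (hR₀ z₀ (htM hz₀)) hr0 hK0 (hR₀n z₀ (htM hz₀)) hR ?_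
      hzK.le⟩
    rw [← dist_eq_norm]
    exact (Metric.mem_ball.1 hd).le

end Pool.Agent.TH332.HF
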